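import Pool.Agent.Lib.MP_07717f_lc.Main

/-! Triangular permutations of `ZMod m × R × R`: derived length three, and 2-groups. -/

set_option autoImplicit false

namespace Pool.Agent.Lib.MP_07717f_lc

section tri

variable {m : ℕ} {R : Type} [CommRing R]

def Sh (σ : Equiv.Perm (Pt m R)) (n : ZMod m) (f g h : ZMod m → R) : Prop :=
  ∀ z, σ z = (z.1 + n, z.2.1 + f z.1, z.2.2 + g z.1 * z.2.1 + h z.1)

variable {σ τ : Equiv.Perm (Pt m R)} {n n' : ZMod m} {f g h f' g' h' : ZMod m → R}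

theorem Sh.one : Sh (1 : Equiv.Perm (Pt m R)) 0 (fun _ => 0) (fun _ => 0) (fun _ => 0) :=
  fun z => by simp

theorem Sh.congr (H : Sh σ n f g h) (hn : n = n') (hf : ∀ k, f k = f' k) (hg : ∀ k, g k = g' k)
    (hh : ∀ k, h k = h' k) : Sh σ n' f' g' h' := fun z => by
  rw [H z, hn, hf, hg, hh]

theorem Sh.mul (H : Sh σ n f g h) (H' : Sh τ n' f' g' h') :
    Sh (σ * τ) (n' + n) (fun k => f' k + f (k + n')) (fun k => g' k + g (k + n'))
      (fun k => h' k + g (k + n') * f' k + h (k + n')) := fun z => by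
  rw [Equiv.Perm.mul_apply, H', H]
  refine Prod.ext (add_assoc _ _ _) (Prod.ext ?_ ?_) <;> simp only <;> ring

theorem Sh.inv (H : Sh σ n f g h) :
    Sh σ⁻¹ (-n) (fun k => -f (k - n)) (fun k => -g (k - n))
      (fun k => g (k - n) * f (k - n) - h (k - n)) := fun z => by
  rw [Equiv.Perm.inv_eq_iff_eq, H]
  simp only [← sub_eq_add_neg]
  refine Prod.ext ?_ (Prod.ext ?_ ?_) <;> simp only <;> ring

theorem Sh.eq_one (H : Sh σ n f g h) (hn : n = 0) (hf : ∀ k, f k = 0) (hg : ∀ k, g k = 0)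
    (hh : ∀ k, h k = 0) : σ = 1 := Equiv.ext fun z => by
  rw [H z, hn, hf, hg, hh]
  simp

variable (m R) in
def L0 : Subgroup (Equiv.Perm (Pt m R)) where
  carrier := {σ | ∃ n f g h, Sh σ n f g h}
  one_mem' := ⟨_, _, _, _, Sh.one⟩
  mul_mem' := fun ⟨_, _, _, _, H⟩ ⟨_, _, _, _, H'⟩ => ⟨_, _, _, _, H.mul H'⟩
  inv_mem' := fun ⟨_, _, _, _, H⟩ => ⟨_, _, _, _, H.inv⟩

variable (m R) in
def L1 : Subgroup (Equiv.Perm (Pt m R)) where
  carrier := {σ | ∃ n f g h, Sh σ n f g h ∧ n = 0}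
  one_mem' := ⟨_, _, _, _, Sh.one, rfl⟩
  mul_mem' := fun ⟨_, _, _, _, H, e⟩ ⟨_, _, _, _, H', e'⟩ =>
    ⟨_, _, _, _, H.mul H', by simp [e, e']⟩
  inv_mem' := fun ⟨_, _, _, _, H, e⟩ => ⟨_, _, _, _, H.inv, by simp [e]⟩

variable (m R) in
def L2 : Subgroup (Equiv.Perm (Pt m R)) where
  carrier := {σ | ∃ n f g h, Sh σ n f g h ∧ n = 0 ∧ (∀ k, f k = 0) ∧ ∀ k, g k = 0}
  one_mem' := ⟨_, _, _, _, Sh.one, rfl, fun _ => rfl, fun _ => rfl⟩
  mul_mem' := fun ⟨_, _, _, _, H, e, e1, e2⟩ ⟨_, _, _, _, H', e', e1', e2'⟩ =>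
    ⟨_, _, _, _, H.mul H', by simp [e, e'], fun k => by simp [e1, e1'], fun k => by simp [e2, e2']⟩
  inv_mem' := fun ⟨_, _, _, _, H, e, e1, e2⟩ =>
    ⟨_, _, _, _, H.inv, by simp [e], fun k => by simp [e1], fun k => by simp [e2]⟩

theorem comm01 (H : σ ∈ L0 m R) (H' : τ ∈ L0 m R) : σ * τ * σ⁻¹ * τ⁻¹ ∈ L1 m R := by
  obtain ⟨n, f, g, h, H⟩ := H
  obtain ⟨n', f', g', h', H'⟩ := H'
  exact ⟨_, _, _, _, ((H.mul H').mul H.inv).mul H'.inv, by ring⟩

theorem comm12 (H : σ ∈ L1 m R) (H' : τ ∈ L1 m R) : σ * τ * σ⁻¹ * τ⁻¹ ∈ L2 m R := by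
  obtain ⟨n, f, g, h, H, rfl⟩ := H
  obtain ⟨n', f', g', h', H', rfl⟩ := H'
  exact ⟨_, _, _, _, ((H.mul H').mul H.inv).mul H'.inv, by ring, fun k => by simp,
    fun k => by simp⟩

theorem comm2 (H : σ ∈ L2 m R) (H' : τ ∈ L2 m R) : σ * τ * σ⁻¹ * τ⁻¹ = 1 := by
  obtain ⟨n, f, g, h, H, rfl, e1, e2⟩ := H
  obtain ⟨n', f', g', h', H', rfl, e1', e2'⟩ := H'
  exact (((H.mul H').mul H.inv).mul H'.inv).eq_one (by ring) (fun k => by simp)
    (fun k => by simp) (fun k => by simp [e1, e2, e1', e2'])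

theorem Sh.pow0 (H : Sh σ n f g h) (N : ℕ) : ∃ f' g' h', Sh (σ ^ N) (N * n) f' g' h' := by
  induction N with
  | zero => exact ⟨_, _, _, by simpa using Sh.one⟩
  | succ N ih =>
    obtain ⟨f', g', h', H'⟩ := ih
    rw [pow_succ]
    exact ⟨_, _, _, (H'.mul H).congr (by push_cast; ring) (fun _ => rfl) (fun _ => rfl)
      (fun _ => rfl)⟩

theorem Sh.pow1 (H : Sh σ 0 f g h) (N : ℕ) :
    ∃ h', Sh (σ ^ N) 0 (fun k => N * f k) (fun k => N * g k) h' ∧
      ((∀ k, f k = 0) → ∀ k, h' k = N * h k) := by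
  induction N with
  | zero => exact ⟨fun _ => 0, by simpa using Sh.one, fun _ k => by simp⟩
  | succ N ih =>
    obtain ⟨h', H', e⟩ := ih
    rw [pow_succ]
    refine ⟨_, (H'.mul H).congr (by simp) (fun k => ?_) (fun k => ?_) (fun _ => rfl),
      fun e1 k => ?_⟩
    · simp only [add_zero]; push_cast; ring
    · simp only [add_zero]; push_cast; ring
    · simp only [add_zero, e1, e e1]; push_cast; ring

theorem L0_pgroup {a r : ℕ} (hm : m = 2 ^ a) (hR : ((2 ^ r : ℕ) : R) = 0) :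
    IsPGroup 2 (L0 m R) := by
  rintro ⟨σ, n, f, g, h, H⟩
  obtain ⟨f1, g1, h1, H1⟩ := H.pow0 m
  rw [ZMod.natCast_self, zero_mul] at H1
  obtain ⟨h2, H2, -⟩ := H1.pow1 (2 ^ r)
  obtain ⟨h3, H3, e3⟩ := H2.pow1 (2 ^ r)
  refine ⟨a + r + r, Subtype.ext ?_⟩
  have := H3.eq_one rfl (fun k => by rw [hR, zero_mul]) (fun k => by rw [hR, zero_mul])
    (fun k => by rw [e3 (fun k => by rw [hR, zero_mul]), hR, zero_mul])
  rw [← pow_mul, ← pow_mul] at this
  rw [Subgroup.coe_pow, pow_add, pow_add, ← hm, mul_assoc]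
  exact this

theorem rho_mem_L0 (lam : ZMod m → R) (w : FreeGroup (Fin 3)) : rho lam w ∈ L0 m R := by
  induction w using FreeGroup.induction_on with
  | C1 => rw [map_one]; exact one_mem _
  | of i =>
    fin_cases i
    · refine ⟨1, fun _ => 0, fun _ => 0, fun _ => 0, fun z => ?_⟩
      show rho lam tt z = _
      rw [rho_tt]; simp [genT]
    · refine ⟨0, fun k => if k = 0 then 1 else 0, fun _ => 0, fun _ => 0, fun z => ?_⟩
      show rho lam aa z = _
      rw [rho_aa, genA_apply]; simp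
    · refine ⟨0, fun _ => 0, lam, fun _ => 0, fun z => ?_⟩
      show rho lam bb z = _
      rw [rho_bb, genB_apply]; simp
  | inv_of i ih => rw [map_inv]; exact inv_mem ih
  | mul x y hx hy => rw [map_mul]; exact mul_mem hx hy

theorem derived_three {G : Type} [Group G] (φ : G →* Equiv.Perm (Pt m R))
    (hφ : ∀ x, φ x ∈ L0 m R) : derivedSeries G 3 ≤ φ.ker := by
  have h1 : derivedSeries G 1 ≤ (L1 m R).comap φ := by
    rw [derivedSeries_succ, Subgroup.commutator_le]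
    intro x _ y _
    rw [Subgroup.mem_comap, map_commutatorElement, commutatorElement_def]
    exact comm01 (hφ x) (hφ y)
  have h2 : derivedSeries G 2 ≤ (L2 m R).comap φ := by
    rw [derivedSeries_succ, Subgroup.commutator_le]
    intro x hx y hy
    rw [Subgroup.mem_comap, map_commutatorElement, commutatorElement_def]
    exact comm12 (h1 hx) (h1 hy)
  rw [derivedSeries_succ, Subgroup.commutator_le]
  intro x hx y hy
  rw [MonoidHom.mem_ker, map_commutatorElement, commutatorElement_def]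
  exact comm2 (h2 hx) (h2 hy)

end tri

theorem derived_le_NN : derivedSeries (FreeGroup (Fin 3)) 3 ≤ NN := fun _ hx =>
  mem_NN.2 fun e => derived_three (rho (lam e)) (rho_mem_L0 _) hx

theorem exists_mod_two {m : ℕ} {z z' : Pt m ℤ} (h : z ≠ z') :
    ∃ r : ℕ, mapPt (Int.castRingHom (ZMod (2 ^ r))) z ≠
      mapPt (Int.castRingHom (ZMod (2 ^ r))) z' := by
  obtain ⟨k, x, y⟩ := z
  obtain ⟨k', x', y'⟩ := z'
  refine ⟨(x - x').natAbs + (y - y').natAbs, fun hc => h ?_⟩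
  simp only [mapPt, Prod.mk.injEq, eq_intCast] at hc
  obtain ⟨h1, h2, h3⟩ := hc
  rw [ZMod.intCast_eq_intCast_iff_dvd_sub] at h2 h3
  have hl : (x - x').natAbs + (y - y').natAbs < 2 ^ ((x - x').natAbs + (y - y').natAbs) :=
    Nat.lt_two_pow_self
  have e2 : x' - x = 0 := Int.eq_zero_of_dvd_of_natAbs_lt_natAbs h2 (by omega)
  have e3 : y' - y = 0 := Int.eq_zero_of_dvd_of_natAbs_lt_natAbs h3 (by omega)
  refine Prod.ext h1 (Prod.ext ?_ ?_)
  · simp only; omega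
  · simp only; omega

theorem res_two (w : FreeGroup (Fin 3)) (hw : w ∉ NN) :
    ∃ (Q : Type) (_ : Group Q) (_ : Finite Q) (r : FreeGroup (Fin 3) →* Q),
      IsPGroup 2 Q ∧ (∀ x ∈ NN, r x = 1) ∧ r w ≠ 1 := by
  rw [mem_NN] at hw
  push Not at hw
  obtain ⟨e, he⟩ := hw
  obtain ⟨z, hz⟩ : ∃ z, rho (lam e) w z ≠ z := by
    by_contra hc
    push Not at hc
    exact he (Equiv.ext hc)
  obtain ⟨r, hr⟩ := exists_mod_two hz
  let φ := Int.castRingHom (ZMod (2 ^ r))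
  let ρ := rho (fun k => φ (lam e k))
  have hker : ∀ x ∈ NN, ρ x = 1 := by
    intro x hx
    refine Equiv.ext fun u => ?_
    obtain ⟨k, a, b⟩ := u
    obtain ⟨a', rfl⟩ := ZMod.intCast_surjective a
    obtain ⟨b', rfl⟩ := ZMod.intCast_surjective b
    have := mapPt_rho φ (lam e) x (k, a', b')
    rw [mem_NN.1 hx e] at this
    exact this.symm
  refine ⟨L0 (md e) (ZMod (2 ^ r)), inferInstance, inferInstance,
    ρ.codRestrict _ (rho_mem_L0 _), L0_pgroup (a := 2 * e + 2) (r := r) ?_ (ZMod.natCast_self _),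
    fun x hx => Subtype.ext (hker x hx), fun hm => hr ?_⟩
  · unfold md pp
    rw [pow_add, pow_mul]
    norm_num [mul_comm]
  · have h1 : ρ w = 1 := congrArg Subtype.val hm
    rw [mapPt_rho φ (lam e) w z]
    show ρ w _ = _
    rw [h1]
    rfl

end Pool.Agent.Lib.MP_07717f_lc
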