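import Pool.Agent.Lib.MP_07717f_lc.S3.Tri

/-! The subgroup generated by `t` and `a b`. -/

set_option autoImplicit false

namespace Pool.Agent.Lib.MP_07717f_lc

open Nat.Partrec (Code)
open Nat.Partrec.Code

variable {n : ℕ}

def iota (n : ℕ) : FreeGroup (Fin (n + 2)) →* FreeGroup (Fin 3) :=
  FreeGroup.lift fun i => if i = 0 then tt else aa * bb

def t2 : FreeGroup (Fin (n + 2)) := FreeGroup.of 0
def c2 : FreeGroup (Fin (n + 2)) := FreeGroup.of 1

theorem iota_t : iota n t2 = tt := by simp [iota, t2]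
theorem iota_c : iota n c2 = aa * bb := by simp [iota, c2]

noncomputable def N2 (n : ℕ) : Subgroup (FreeGroup (Fin (n + 2))) := NN.comap (iota n)

theorem N2_normal : (N2 n).Normal := NN_normal.comap _

def sub (l : Fin (n + 2) × Bool) : List (Fin 3 × Bool) :=
  if l.1 = 0 then [(0, l.2)] else cond l.2 [(1, true), (2, true)] [(2, false), (1, false)]

theorem iota_mk (w : List (Fin (n + 2) × Bool)) :
    iota n (FreeGroup.mk w) = FreeGroup.mk (w.flatMap sub) := by
  unfold iota
  rw [FreeGroup.lift_mk]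
  induction w with
  | nil => rfl
  | cons l w ih =>
    rw [List.map_cons, List.prod_cons, ih, List.flatMap_cons, ← FreeGroup.mul_mk]
    congr 1
    obtain ⟨i, b⟩ := l
    by_cases h : i = 0 <;> cases b <;> simp only [sub, h, if_true, if_false, cond] <;> rfl

theorem N2_re : REPred fun w : List (Fin (n + 2) × Bool) => FreeGroup.mk w ∉ N2 n := by
  have hp : Primrec fun w : List (Fin (n + 2) × Bool) => w.flatMap sub :=
    Primrec.list_flatMap Primrec.id ((Primrec.dom_finite sub).comp Primrec.snd).to₂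
  have h : REPred fun w : List (Fin (n + 2) × Bool) =>
      ∃ e, rho (lam e) (FreeGroup.mk (w.flatMap sub)) ≠ 1 :=
    Partrec.comp re_nontrivial hp.to_comp
  refine h.of_eq fun w => ?_
  rw [N2, Subgroup.mem_comap, iota_mk, mem_NN]
  push Not
  rfl

theorem derived_le_N2 : derivedSeries (FreeGroup (Fin (n + 2))) 3 ≤ N2 n := fun x hx =>
  derived_le_NN (map_derivedSeries_le_derivedSeries (iota n) 3 ⟨x, hx, rfl⟩)

/-- the commutator of `c` with its conjugate by the `j`-th power of `t` -/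
def K2 (j : ℕ) : FreeGroup (Fin (n + 2)) :=
  c2 * (t2⁻¹ ^ j * c2 * t2 ^ j) * c2⁻¹ * (t2⁻¹ ^ j * c2⁻¹ * t2 ^ j)

theorem rho_K2 {m : ℕ} (l : ZMod m → ℤ) (j : ℕ) (z : Pt m ℤ) :
    rho l (iota n (K2 j)) z = (z.1, z.2.1, z.2.2 + l (-j) * (if z.1 + j = 0 then 1 else 0) -
      l j * (if z.1 = 0 then 1 else 0)) := by
  simp only [K2, map_mul, map_pow, map_inv, iota_t, iota_c, mul_inv_rev, rho_tt, rho_aa, rho_bb,
    Equiv.Perm.mul_apply, genT_pow, genT_inv_pow, genA_apply, genA_inv_apply, genB_apply,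
    genB_inv_apply, add_sub_cancel_right]
  have h1 : l (-j) * (if z.1 + j = 0 then (1 : ℤ) else 0) =
      l z.1 * (if z.1 + j = 0 then 1 else 0) := by
    split_ifs with h
    · rw [eq_neg_of_add_eq_zero_left h]
    · simp
  have h2 : l j * (if z.1 = 0 then (1 : ℤ) else 0) =
      l (z.1 + j) * (if z.1 = 0 then 1 else 0) := by
    split_ifs with h
    · rw [h, zero_add]
    · simp
  rw [h1, h2]
  refine Prod.ext rfl (Prod.ext ?_ ?_) <;> simp only <;> ring

theorem lam_neg (e j : ℕ) : lam e (-(j : ZMod (md e))) =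
    (if (j + pp e) % md e = 0 then (alpha e : ℤ) else 0) +
      (if (j + qq e) % md e = 0 then (beta e : ℤ) else 0) := by
  unfold lam
  simp only [← cast_eq_zero_iff, Nat.cast_add, neg_eq_iff_add_eq_zero]

theorem lam_neg_small (e j : ℕ) (h : j % md e ≤ pp e) : lam e (-(j : ZMod (md e))) = 0 := by
  have hp := pp_pos e
  have h1 : ¬ (j + pp e) % md e = 0 := by
    rw [← Nat.mod_add_mod, Nat.mod_eq_of_lt (by unfold md at *; omega)]
    omega
  have h2 : ¬ (j + qq e) % md e = 0 := by
    rw [← Nat.mod_add_mod, Nat.mod_eq_of_lt (by unfold md qq at *; omega)]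
    unfold qq
    omega
  rw [lam_neg, if_neg h1, if_neg h2, add_zero]

theorem lam_neg_pp (e e' : ℕ) : lam e (-(pp e' : ZMod (md e))) = 0 := by
  apply lam_neg_small
  by_cases h : e' = e
  · subst h
    exact Nat.mod_le _ _
  rcases pp_cases h with h | h
  · rw [Nat.mod_eq_zero_of_dvd h]; exact Nat.zero_le _
  · have h1 := Nat.le_of_dvd (pp_pos e) h
    have h2 := pp_lt e'
    have h3 := Nat.mod_le (pp e') (md e)
    omega

theorem lam_neg_qq_ne {e e' : ℕ} (h : e' ≠ e) : lam e (-(qq e' : ZMod (md e))) = 0 := by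
  apply lam_neg_small
  rcases pp_cases h with h | h
  · rw [Nat.mod_eq_zero_of_dvd (by unfold qq; exact Dvd.dvd.mul_left h 2)]; exact Nat.zero_le _
  · have h1 := Nat.le_of_dvd (pp_pos e) h
    have h2 := qq_lt e'
    have h3 := Nat.mod_le (qq e') (md e)
    omega

theorem lam_neg_qq_self (e : ℕ) : lam e (-(qq e : ZMod (md e))) = beta e := by
  have h : ((qq e + qq e : ℕ) : ZMod (md e)) = 0 := by
    rw [show qq e + qq e = md e by unfold qq md; ring, ZMod.natCast_self]
  rw [Nat.cast_add] at h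
  rw [neg_eq_of_add_eq_zero_left h, lam_qq_self]

/-- the conjugate of `K2 (pp e)` by the `qq e`-th power of `t` -/
def B2 (e : ℕ) : FreeGroup (Fin (n + 2)) := t2⁻¹ ^ qq e * K2 (pp e) * t2 ^ qq e

theorem rho_A2 (e e' : ℕ) (z : Pt (md e') ℤ) : rho (lam e') (iota n (K2 (pp e))) z =
    (z.1, z.2.1, z.2.2 - lam e' (pp e) * (if z.1 = 0 then 1 else 0)) := by
  rw [rho_K2, lam_neg_pp, zero_mul, add_zero]

theorem rho_B2 (e e' : ℕ) (z : Pt (md e') ℤ) : rho (lam e') (iota n (B2 e)) z =
    (z.1, z.2.1, z.2.2 - lam e' (pp e) * (if z.1 + qq e = 0 then 1 else 0)) := by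
  simp only [B2, map_mul, map_pow, map_inv, iota_t, rho_tt, Equiv.Perm.mul_apply, genT_pow,
    genT_inv_pow, rho_A2, add_sub_cancel_right]

theorem rho_K2_pow {m : ℕ} (l : ZMod m → ℤ) (j N : ℕ) (z : Pt m ℤ) :
    rho l (iota n (K2 j ^ N)) z = (z.1, z.2.1, z.2.2 + N * (l (-j) *
      (if z.1 + j = 0 then 1 else 0) - l j * (if z.1 = 0 then 1 else 0))) := by
  induction N with
  | zero => simp
  | succ N ih =>
    rw [pow_succ', map_mul, map_mul, Equiv.Perm.mul_apply, ih, rho_K2]
    refine Prod.ext rfl (Prod.ext rfl ?_)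
    simp only; push_cast; ring

theorem U2_mem {e : ℕ} (h : ¬ ∃ s, att e s = true) : K2 (qq e) ∈ N2 n := by
  refine mem_NN.2 fun e' => Equiv.ext fun z => ?_
  rw [rho_K2]
  by_cases he : e = e'
  · subst he
    rw [lam_qq_self, lam_neg_qq_self]
    simp [beta, h]
  · rw [lam_qq_ne he, lam_neg_qq_ne he]
    simp

theorem A2_ne {e : ℕ} (h : ¬ ∃ s, att e s = true) : (B2 e)⁻¹ * K2 (pp e) ∉ N2 n := by
  intro hc
  have h1 := mem_NN.1 hc e
  rw [map_mul, map_inv, map_mul, map_inv, inv_mul_eq_one] at h1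
  have h2 := rho_A2 (n := n) e e (0, 0, 0)
  rw [← h1, rho_B2, lam_pp_self] at h2
  have ha : alpha e = 1 := by simp only [alpha, h, dite_false]
  have hq : ¬ (qq e : ZMod (md e)) = 0 := by
    rw [cast_eq_zero_iff, Nat.mod_eq_of_lt (qq_lt e)]
    have := pp_pos e
    unfold qq
    omega
  simp [ha, hq] at h2

theorem A2_eq {e : ℕ} (h : ∃ s, att e s = true) :
    (B2 e * K2 (qq e) ^ alpha e)⁻¹ * K2 (pp e) ∈ N2 n := by
  refine mem_NN.2 fun e' => ?_
  rw [map_mul, map_inv, map_mul (rho _), map_inv, inv_mul_eq_one]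
  refine Equiv.ext fun z => ?_
  rw [map_mul, map_mul, Equiv.Perm.mul_apply, rho_K2_pow, rho_B2, rho_A2]
  refine Prod.ext rfl (Prod.ext rfl ?_)
  by_cases he : e = e'
  · subst he
    have hb : beta e = 1 := by simp only [beta, h, if_true]
    simp only [lam_pp_self, lam_qq_self, lam_neg_qq_self, hb]
    push_cast
    ring
  · simp only [lam_pp_ne he, lam_qq_ne he, lam_neg_qq_ne he]
    ring

theorem N2_not_embed (f : FreeGroup (Fin (n + 2)) →* Equiv.Perm ℕ)
    (hker : ∀ w, f w = 1 ↔ w ∈ N2 n) (hc : ∀ w, Computable (⇑(f w) : ℕ → ℕ)) : False := by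
  classical
  have hT := computable_iterate (hc t2)
  have hT' := computable_iterate (hc t2⁻¹)
  have hK : Computable₂ fun j x : ℕ => f (K2 j) x := by
    have h0 : Computable fun a : ℕ × ℕ => a.1 := Computable.fst
    have h1 := hT.comp h0 Computable.snd
    have h2 := hT'.comp h0 ((hc c2⁻¹).comp h1)
    have h3 := hT.comp h0 ((hc c2⁻¹).comp h2)
    have h4 := hT'.comp h0 ((hc c2).comp h3)
    refine Computable₂.mk (((hc c2).comp h4).of_eq fun a => ?_)
    simp only [K2, map_mul, map_pow, Equiv.Perm.mul_apply, Equiv.Perm.coe_pow]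
  have hp : Computable fun a : Code × ℕ => pp (Encodable.encode a.1) :=
    prim_pp.to_comp.comp (Computable.encode.comp Computable.fst)
  have hq : Computable fun a : Code × ℕ => qq (Encodable.encode a.1) :=
    prim_qq.to_comp.comp (Computable.encode.comp Computable.fst)
  have hA : Computable fun a : Code × ℕ => f (K2 (pp (Encodable.encode a.1))) a.2 :=
    hK.comp hp Computable.snd
  have hU : Computable fun a : Code × ℕ => f (K2 (qq (Encodable.encode a.1))) a.2 :=
    hK.comp hq Computable.snd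
  have hB : Computable fun a : Code × ℕ => f (B2 (Encodable.encode a.1)) a.2 := by
    refine (hT'.comp hq (hK.comp hp (hT.comp hq Computable.snd))).of_eq fun a => ?_
    simp only [B2, map_mul, map_pow, Equiv.Perm.mul_apply, Equiv.Perm.coe_pow]
  have heq : Computable₂ fun a b : ℕ => decide (a = b) := Primrec.eq.decide.to_comp
  have hP : ComputablePred fun a : Code × ℕ =>
      f (K2 (pp (Encodable.encode a.1))) a.2 ≠ f (B2 (Encodable.encode a.1)) a.2 ∧
        f (K2 (qq (Encodable.encode a.1))) a.2 = a.2 := by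
    refine Computable.computablePred ((Primrec.and.to_comp.comp
      (Primrec.not.to_comp.comp (heq.comp hA hB))
      (heq.comp hU Computable.snd)).of_eq fun a => ?_)
    simp
  refine ComputablePred.halting_problem_not_re 0 ((re_exists_nat
    (P := fun (c : Code) x => f (K2 (pp (Encodable.encode c))) x ≠ f (B2 (Encodable.encode c)) x ∧
        f (K2 (qq (Encodable.encode c))) x = x) hP).of_eq fun c => ?_)
  rw [← att_iff]
  constructor
  · rintro ⟨x, h1, h2⟩ h
    apply h1
    have h3 := (hker _).2 (A2_eq h)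
    rw [map_mul, map_inv, inv_mul_eq_one] at h3
    rw [← h3, map_mul, map_pow, Equiv.Perm.mul_apply,
      Equiv.Perm.pow_apply_eq_self_of_apply_eq_self h2]
  · intro h
    have h1 : f (B2 (Encodable.encode c)) ≠ f (K2 (pp (Encodable.encode c))) := fun h0 =>
      A2_ne h ((hker _).1 (by rw [map_mul, map_inv, h0, inv_mul_cancel]))
    obtain ⟨x, hx⟩ : ∃ x, f (K2 (pp (Encodable.encode c))) x ≠ f (B2 (Encodable.encode c)) x := by
      by_contra hc
      push Not at hc
      exact h1 (Equiv.ext hc).symm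
    exact ⟨x, hx, by rw [(hker _).2 (U2_mem h)]; rfl⟩

end Pool.Agent.Lib.MP_07717f_lc
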